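import Pool.Agent.helper66.PX.Spec

/-!
# Project PX, row MA: the centre of a semiprime PI algebra
-/

set_option autoImplicit false

noncomputable section

namespace Pool.Agent.PX

universe u v w

/-- the integral span of the products of scalars and elements of a set contains its linear span. -/
theorem MA_span {L : Type v} [Field L] {n : ℕ} (S : Set (Matrix (Fin n) (Fin n) L))
    (m : Matrix (Fin n) (Fin n) L) (hm : m ∈ Submodule.span L S) :
    m ∈ Submodule.span ℤ {y : Matrix (Fin n) (Fin n) L |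
      ∃ γ ∈ Set.range (algebraMap L (Matrix (Fin n) (Fin n) L)), ∃ a ∈ S, y = γ * a} := by
  induction hm using Submodule.span_induction with
  | mem x hx =>
    refine Submodule.subset_span ⟨algebraMap L _ 1, ⟨1, rfl⟩, x, hx, ?_⟩
    rw [map_one, one_mul]
  | zero => exact Submodule.zero_mem _
  | add x y _ _ hx hy => exact Submodule.add_mem _ hx hy
  | smul l x hxm hx =>
    clear hxm
    induction hx using Submodule.span_induction with
    | mem y hy =>
      obtain ⟨γ, ⟨g, rfl⟩, a, ha, rfl⟩ := hy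
      refine Submodule.subset_span ⟨algebraMap L _ (l * g), ⟨l * g, rfl⟩, a, ha, ?_⟩
      rw [map_mul, mul_assoc, Algebra.smul_def]
    | zero => rw [smul_zero]; exact Submodule.zero_mem _
    | add x y _ _ hx hy => rw [smul_add]; exact Submodule.add_mem _ hx hy
    | smul k x _ hx => rw [smul_comm]; exact Submodule.smul_mem _ _ hx

/-- the product of a nonempty list of elements of a two-sided ideal is in the ideal. -/
theorem MA_prod {K : Type u} {R : Type v} [Field K] [Ring R] [Algebra K R] {I : Submodule K R} (hI : Two K R I)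
    (x : ℕ → R) (hx : ∀ i, x i ∈ I) (w : List ℕ) (hw : w ≠ []) : (w.map x).prod ∈ I := by
  cases w with
  | nil => exact absurd rfl hw
  | cons a t =>
    rw [List.map_cons, List.prod_cons]
    exact (hI _ _ (hx a)).2

theorem MA_mem {K : Type u} {R : Type v} [Field K] [Ring R] [Algebra K R] {I : Submodule K R} (hI : Two K R I)
    (s : List ℕ) (c : List ℕ → ℤ) (hs : s ≠ []) (x : ℕ → R) (hx : ∀ i, x i ∈ I) : EV c s x ∈ I := by
  unfold EV
  refine Submodule.sum_mem _ fun w hw => ?_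
  have hw' : w.Perm s := List.mem_permutations.1 (List.mem_toFinset.1 hw)
  have hne : w ≠ [] := by
    rintro rfl
    exact hs (List.nil_perm.1 hw')
  exact zsmul_mem (MA_prod hI x hx w hne) (c w)

theorem MA (hEXT : EXT_stmt.{0, v}) (hSEP : SEP_stmt.{u, v}) (hCP : CP_stmt.{v}) : MA_stmt.{u, v} := by
  intro K R _ _ _ _ n I hI hSem hMI hne
  classical
  let P : ℕ → Prop := fun n' => ∃ (L : Type v) (_ : Field L) (_ : Algebra K L)
    (ρ : R →ₐ[K] Matrix (Fin n') (Fin n') L), 1 ≤ n' ∧ 2 * n' ≤ n ∧ Submodule.span L (ρ '' (I : Set R)) = ⊤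
  obtain ⟨z₀, hz₀, hz₀ne⟩ := Submodule.exists_mem_ne_zero_of_ne_bot hne
  obtain ⟨L₁, f₁, a₁, n₁, ρ₁, h1, h2, -, h3⟩ := hSEP K R n I hI hSem hMI z₀ hz₀ hz₀ne
  have hP1 : P n₁ := ⟨L₁, f₁, a₁, ρ₁, h1, h2, h3⟩
  have hbound : ∀ m, P m → m ≤ n := by
    rintro m ⟨_, _, _, _, h, h', _⟩
    omega
  set n₀ := Nat.findGreatest P n with hn₀
  have hP0 : P n₀ := Nat.findGreatest_spec (hbound _ hP1) hP1
  have hmax : ∀ m, P m → m ≤ n₀ := fun m hm => Nat.le_findGreatest (hbound m hm) hm
  obtain ⟨L₀, f₀, a₀, ρ₀, hn1, -, hspan⟩ := hP0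
  obtain ⟨s, c, hsnd, hsne, hcp⟩ := hCP n₀ hn1
  have : CharZero L₀ := charZero_of_injective_algebraMap (algebraMap K L₀).injective
  -- (a)
  have hex : ∃ x : ℕ → R, (∀ i, x i ∈ I) ∧ EV c s x ≠ 0 := by
    by_contra hcon
    push Not at hcon
    obtain ⟨y, hy⟩ := (hcp L₀).2.1
    refine hy (hEXT ℤ (Matrix (Fin n₀) (Fin n₀) L₀) (ρ₀ '' (I : Set R))
      (Set.range (algebraMap L₀ (Matrix (Fin n₀) (Fin n₀) L₀))) ⟨0, I.zero_mem, map_zero ρ₀⟩ ?_ ?_ s c hsnd ?_ y ?_)
    · rintro _ ⟨g, rfl⟩ a _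
      exact Algebra.commutes g a
    · rintro _ ⟨g, rfl⟩ _ ⟨g', rfl⟩
      exact Algebra.commutes g _
    · intro x hx
      choose x' hx' hxx using hx
      have e := EV_map (K := ℤ) ρ₀.toRingHom.toIntAlgHom c s x'
      rw [hcon x' hx', map_zero] at e
      have e2 : (fun i => ρ₀.toRingHom.toIntAlgHom (x' i)) = x := funext fun i => hxx i
      rw [e2] at e
      exact e.symm
    · intro i
      refine MA_span _ _ ?_
      rw [hspan]
      exact Submodule.mem_top
  obtain ⟨x, hxI, hz⟩ := hex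
  refine ⟨EV c s x, MA_mem hI s c hsne x hxI, hz, fun a ha => ?_⟩
  by_contra hne'
  have ht : EV c s x * a - a * EV c s x ∈ I :=
    I.sub_mem (hI _ _ ha).1 (hI _ _ ha).2
  obtain ⟨L, fL, aL, n', ρ, h1', h2', hρt, hsp⟩ := hSEP K R n I hI hSem hMI _ ht (sub_ne_zero.2 hne')
  have : CharZero L := charZero_of_injective_algebraMap (algebraMap K L).injective
  have hle : n' ≤ n₀ := hmax n' ⟨L, fL, aL, ρ, h1', h2', hsp⟩
  have e := EV_map (K := ℤ) ρ.toRingHom.toIntAlgHom c s x
  have e' : ρ (EV c s x) = EV c s (fun i => ρ (x i)) := e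
  apply hρt
  rw [map_sub, map_mul, map_mul, e']
  rcases hle.lt_or_eq with hlt | heq
  · have h0 : EV c s (fun i => ρ (x i)) = 0 := (hcp L).2.2 n' hlt (fun i => ρ (x i))
    rw [h0, zero_mul, mul_zero, sub_zero]
  · subst heq
    obtain ⟨l, hl⟩ := (hcp L).1 (fun i => ρ (x i))
    rw [hl, smul_mul_assoc, one_mul, mul_smul_comm, mul_one, sub_self]

end Pool.Agent.PX
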